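import Mathlib

set_option autoImplicit false

namespace Pool.Agent.Results.MP_fb91b8_co.Counter

open Equiv

def Cyc (n : ℕ) : Type := {g : Perm (Fin n) // ∀ x y, g.SameCycle x y}

theorem rot_cyc : ∀ (n : ℕ) (x y : Fin n), (finRotate n).SameCycle x y
  | 0, x, _ => x.elim0
  | 1, x, y => Subsingleton.elim x y ▸ Perm.SameCycle.refl _ x
  | n + 2, x, y => isCycle_finRotate.sameCycle
      (Perm.mem_support.1 (support_finRotate (n := n) ▸ Finset.mem_univ x))
      (Perm.mem_support.1 (support_finRotate (n := n) ▸ Finset.mem_univ y))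

def cn (n : ℕ) : Cyc n := ⟨finRotate n, rot_cyc n⟩

def Gam (n : ℕ) : SimpleGraph (Cyc n) :=
  SimpleGraph.fromRel fun g h => ∃ i j : Fin n, j.1 = i.1 + 1 ∧ h.1 = swap i j * g.1 * swap i j

noncomputable def sortTime (n : ℕ) : ℕ∞ := ⨆ g : Cyc n, (Gam n).edist (cn n) g

def invL : List ℕ → ℕ
  | [] => 0
  | a :: l => l.countP (fun b => b < a) + invL l

def admissible (n : ℕ) (l : List ℕ) : Bool :=
  (List.range (n + 1)).all fun k => 2 * (l.take k).sum ≤ k * (n + 1)

def start (n : ℕ) : List ℕ :=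
  (List.range' 1 (n - n / 2)).reverse ++ (List.range' (n - n / 2 + 1) (n / 2)).reverse

def moveLeft (n : ℕ) (l : List ℕ) (v : ℕ) : List ℕ :=
  let r := l.erase v
  let lo := if v = n then 0 else r.idxOf (v + 1) + 1
  match (List.range (l.idxOf v + 1)).find? (fun j => lo ≤ j && admissible n (r.insertIdx j v)) with
  | some j => r.insertIdx j v
  | none => l

def pi0 (n : ℕ) : List ℕ := ((List.range (n / 2)).map (fun t => n - t)).foldl (moveLeft n) (start n)

theorem pi0_12 : pi0 12 = [6, 5, 4, 3, 12, 2, 11, 1, 10, 9, 8, 7] := by decide +kernel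

def invP {n : ℕ} (f : Fin n → Fin n) : ℕ :=
  (Finset.univ.filter (fun p : Fin n × Fin n => p.1 < p.2 ∧ f p.2 < f p.1)).card

theorem invP_swap {n : ℕ} (p : Perm (Fin n)) (i j : Fin n) (h : j.1 = i.1 + 1) :
    invP (swap i j * p : Perm (Fin n)) ≤ invP p + 1 := by
  refine le_trans (Finset.card_le_card (t := insert (p.symm i, p.symm j) _) ?_)
    (Finset.card_insert_le _ _)
  rintro ⟨a, b⟩ hab
  simp only [Finset.mem_filter, Finset.mem_univ, true_and, Finset.mem_insert, Prod.mk.injEq,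
    Perm.mul_apply, eq_symm_apply, swap_apply_def] at hab ⊢
  obtain ⟨h1, h2⟩ := hab
  have h3 : p a ≠ p b := fun e => h1.ne (p.injective e)
  simp only [h1, true_and, Fin.ext_iff, Fin.lt_def, ne_eq] at h2 h3 ⊢
  split_ifs at h2 <;> omega

theorem walk {n : ℕ} {g h : Cyc n} (w : (Gam n).Walk g h) : ∀ p : Perm (Fin n),
    h.1 = p * finRotate n * p⁻¹ → ∃ q : Perm (Fin n), g.1 = q * finRotate n * q⁻¹ ∧
      invP q ≤ invP p + w.length := by
  induction w with
  | nil => exact fun p hp => ⟨p, hp, le_rfl⟩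
  | @cons a b c hab w ih =>
    intro p hp
    obtain ⟨q, h1, h2⟩ := ih p hp
    obtain ⟨i, j, h3, h4⟩ : ∃ i j : Fin n, j.1 = i.1 + 1 ∧ a.1 = swap i j * b.1 * swap i j := by
      rcases ((SimpleGraph.fromRel_adj _ _ _).1 hab).2 with ⟨i, j, h3, h4⟩ | h
      · exact ⟨i, j, h3, by rw [h4]; simp [mul_assoc]⟩
      · exact h
    refine ⟨swap i j * q, by rw [h4, h1]; simp [mul_assoc], ?_⟩
    have := invP_swap q i j h3
    rw [SimpleGraph.Walk.length_cons]
    omega

def f1 : Fin 18 → Fin 18 := ![0, 12, 11, 10, 9, 8, 7, 6, 5, 17, 4, 3, 16, 2, 15, 1, 14, 13]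

noncomputable def p1 : Perm (Fin 18) := Equiv.ofBijective f1 (by decide +kernel)

theorem big : ∀ r : Fin 18, 83 ≤ invP (fun x => f1 (x + r)) := by decide +kernel

theorem result : ¬ ∀ n : ℕ, 1 ≤ n → sortTime n = invL (pi0 n) := by
  intro h
  have h1 := h 18 (by omega)
  rw [show invL (pi0 18) = 82 by decide +kernel] at h1
  let g : Cyc 18 := ⟨p1 * finRotate 18 * p1⁻¹, fun x y => Perm.sameCycle_conj.2 (rot_cyc 18 _ _)⟩
  have h2 : (Gam 18).edist (cn 18) g ≤ (82 : ℕ) := h1 ▸ le_iSup (fun g => (Gam 18).edist (cn 18) g) g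
  obtain ⟨w, hw⟩ := SimpleGraph.exists_walk_of_edist_ne_top (ne_top_of_le_ne_top (by simp) h2)
  rw [← hw, Nat.cast_le] at h2
  obtain ⟨q, a1, a2⟩ := walk w.reverse 1 (by simp [cn])
  have a3 : invP (1 : Perm (Fin 18)) = 0 := by decide +kernel
  have a4 : ∀ x, p1⁻¹ (q (x + 1)) = p1⁻¹ (q x) + 1 := by
    intro x
    have := congrArg (fun s : Perm (Fin 18) => p1⁻¹ (s (q x))) a1
    simpa [g] using this.symm
  have a5 : ∀ x, p1⁻¹ (q x) = x + p1⁻¹ (q 0) := by
    intro x
    induction x using Fin.induction with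
    | zero => simp
    | succ i ih => rw [← Fin.coeSucc_eq_succ, a4, ih, add_right_comm]
  have a6 : (q : Fin 18 → Fin 18) = fun x => f1 (x + p1⁻¹ (q 0)) := by
    funext x
    rw [← a5]
    exact (p1.apply_symm_apply _).symm
  have a7 := big (p1⁻¹ (q 0))
  rw [← a6] at a7
  rw [SimpleGraph.Walk.length_reverse] at a2
  omega

end Pool.Agent.Results.MP_fb91b8_co.Counter
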